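import Pool.Agent.H958.RL.Stm
import Pool.Graph.R_seed8.W571.RD.Pind

/-!
# Conditioning on the edges outside a set (project RL of helper958)
-/

set_option autoImplicit false

namespace Pool.Agent.H127.RL.Cond

open Finset
open scoped Classical
open Pool.Agent.W830.RD
open Pool.Agent.W571.RD.Pind

theorem EX_mono {α : Type} {p : ℝ} (hp : 0 < p) (hp1 : p < 1) (W : Finset α)
    (F G : Finset α → ℝ) (h : ∀ E ⊆ W, F E ≤ G E) : EX p W F ≤ EX p W G := by
  unfold EX
  refine Finset.sum_le_sum fun E hE => ?_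
  refine mul_le_mul_of_nonneg_left (h E (Finset.mem_powerset.1 hE)) ?_
  have : 0 < 1 - p := by linarith
  positivity

theorem split {n : ℕ} (S E1 E2 : Finset (Fin n × Fin n)) (h1 : E1 ⊆ Om n \ S)
    (h2 : E2 ⊆ Om n ∩ S) : (E1 ∪ E2) \ S = E1 ∧ (E1 ∪ E2) ∩ S = E2 := by
  constructor
  · ext x
    simp only [Finset.mem_sdiff, Finset.mem_union]
    constructor
    · rintro ⟨h | h, hS⟩
      · exact h
      · exact absurd (Finset.mem_inter.1 (h2 h)).2 hS
    · intro h
      exact ⟨Or.inl h, (Finset.mem_sdiff.1 (h1 h)).2⟩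
  · ext x
    simp only [Finset.mem_inter, Finset.mem_union]
    constructor
    · rintro ⟨h | h, hS⟩
      · exact absurd hS (Finset.mem_sdiff.1 (h1 h)).2
      · exact h
    · intro h
      exact ⟨Or.inr h, (Finset.mem_inter.1 (h2 h)).2⟩

theorem main : Pool.Agent.H958.RL.S_COND := by
  intro p η n S Q hp hp1 h
  have hW : Om n = (Om n \ S) ∪ (Om n ∩ S) := (Finset.sdiff_union_inter (Om n) S).symm
  have hd : Disjoint (Om n \ S) (Om n ∩ S) := Finset.disjoint_sdiff_inter (Om n) S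
  have e1 : Pr p n (fun E => Q (E \ S) (E ∩ S)) =
      EX p (Om n \ S) (fun E1 => EX p (Om n ∩ S) (fun E2 => ind (Q E1 E2))) := by
    rw [Pr_eq]
    conv_lhs => rw [hW]
    rw [fub p _ _ hd]
    refine EX_congr p _ _ _ fun E1 h1 => ?_
    refine EX_congr p _ _ _ fun E2 h2 => ?_
    obtain ⟨a1, a2⟩ := split S E1 E2 h1 h2
    rw [a1, a2]
  have e2 : ∀ E1 ⊆ Om n \ S, EX p (Om n ∩ S) (fun E2 => ind (Q E1 E2)) ≤ η := by
    intro E1 h1
    refine le_trans (le_of_eq ?_) (h E1 h1)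
    rw [Pr_eq]
    conv_rhs => rw [hW]
    rw [fub p _ _ hd]
    rw [EX_congr p (Om n \ S) _
      (fun _ => EX p (Om n ∩ S) (fun E2 => ind (Q E1 E2)) * 1) fun E1' h1' => by
        rw [mul_one]
        refine EX_congr p _ _ _ fun E2 h2 => ?_
        rw [(split S E1' E2 h1' h2).2]]
    rw [EX_mul', EX_one, mul_one]
  rw [e1]
  refine (EX_mono hp hp1 _ _ (fun _ => η * 1) fun E1 h1 => ?_).trans (le_of_eq ?_)
  · rw [mul_one]
    exact e2 E1 h1
  · rw [EX_mul', EX_one, mul_one]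

end Pool.Agent.H127.RL.Cond
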